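import Pool.Agent.X211.EL.Wc

/-! Part EL_WAL of MP_32ff52_an. -/

open MeasureTheory Set
open scoped ENNReal

namespace Pool.Agent.X211.EL

open Pool.Agent.X171.EL

theorem coin_int : ∫ b : Bool, (if b then (-1 : ℝ) else 1) ∂coin = 0 := by
  unfold coin
  rw [PMF.integral_eq_sum]
  simp [PMF.uniformOfFintype_apply]

theorem int_chi {S : Finset ℕ} (hS : S.Nonempty) : ∫ ω, chi S ω ∂Pr = 0 := by
  have h1 : ∀ ω : Om, chi S ω = (fun x : (i : S) → Bool => ∏ i : S,
      (fun (_ : S) (b : Bool) => if b then (-1 : ℝ) else 1) i (x i)) (S.restrict ω) := by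
    intro ω
    unfold chi
    rw [← Finset.prod_coe_sort S (fun i => if ω i then (-1 : ℝ) else 1)]
    rfl
  simp only [h1]
  have hm : Measurable (fun x : (i : S) → Bool => ∏ i : S,
      (fun (_ : S) (b : Bool) => if b then (-1 : ℝ) else 1) i (x i)) :=
    measurable_of_finite _
  have h2 : ∫ ω, (fun x : (i : S) → Bool => ∏ i : S,
      (fun (_ : S) (b : Bool) => if b then (-1 : ℝ) else 1) i (x i)) (S.restrict ω) ∂Pr =
      ∫ x, (fun x : (i : S) → Bool => ∏ i : S,
      (fun (_ : S) (b : Bool) => if b then (-1 : ℝ) else 1) i (x i)) x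
        ∂(Measure.map (S.restrict (π := fun _ : ℕ => Bool)) Pr) := by
    rw [integral_map]
    · exact (Finset.measurable_restrict S).aemeasurable
    · exact hm.aestronglyMeasurable
  rw [h2]
  unfold Pr
  rw [Measure.infinitePi_map_restrict]
  refine (integral_fintype_prod_eq_prod (fun (_ : S) (b : Bool) => if b then (-1 : ℝ) else 1)
    (μ := fun _ : S => coin)).trans ?_
  obtain ⟨i, hi⟩ := hS
  refine Finset.prod_eq_zero (Finset.mem_univ ⟨i, hi⟩) ?_
  exact coin_int

theorem chi_mul (S T : Finset ℕ) (ω : Om) : chi S ω * chi T ω = chi (symmDiff S T) ω := by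
  have hsq : ∀ i, (if ω i then (-1 : ℝ) else 1) * (if ω i then (-1 : ℝ) else 1) = 1 := by
    intro i; split_ifs <;> norm_num
  have h1 : chi S ω = chi (S \ T) ω * chi (S ∩ T) ω := by
    unfold chi
    rw [← Finset.prod_union]
    · congr 1
      ext x; simp only [Finset.mem_union, Finset.mem_sdiff, Finset.mem_inter]; tauto
    · rw [Finset.disjoint_left]; intro x; simp only [Finset.mem_sdiff, Finset.mem_inter]; tauto
  have h2 : chi T ω = chi (T \ S) ω * chi (S ∩ T) ω := by
    unfold chi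
    rw [← Finset.prod_union]
    · congr 1
      ext x; simp only [Finset.mem_union, Finset.mem_sdiff, Finset.mem_inter]; tauto
    · rw [Finset.disjoint_left]; intro x; simp only [Finset.mem_sdiff, Finset.mem_inter]; tauto
  have h3 : chi (symmDiff S T) ω = chi (S \ T) ω * chi (T \ S) ω := by
    unfold chi
    rw [← Finset.prod_union]
    · congr 1
    · rw [Finset.disjoint_left]; intro x; simp only [Finset.mem_sdiff]; tauto
  have h4 : chi (S ∩ T) ω * chi (S ∩ T) ω = 1 := by
    unfold chi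
    rw [← Finset.prod_mul_distrib]
    exact Finset.prod_eq_one fun i _ => hsq i
  rw [h1, h2, h3]
  calc _ = chi (S \ T) ω * chi (T \ S) ω * (chi (S ∩ T) ω * chi (S ∩ T) ω) := by ring
    _ = _ := by rw [h4, mul_one]

theorem memLp_chi (S : Finset ℕ) : MemLp (chi S) 2 Pr := by
  refine MemLp.of_bound (measurable_chi S).aestronglyMeasurable 1 ?_
  exact Filter.Eventually.of_forall fun ω => by rw [Real.norm_eq_abs, abs_chi]

noncomputable def ee (S : Finset ℕ) : X2 := (memLp_chi S).toLp (chi S)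

theorem inner_ee (S : Finset ℕ) (v : X2) :
    inner ℝ (ee S) v = ∫ ω, v ω * chi S ω ∂Pr := by
  rw [L2.inner_def]
  apply integral_congr_ae
  filter_upwards [MemLp.coeFn_toLp (memLp_chi S)] with ω hω
  rw [ee, hω]
  simp [mul_comm]

theorem orth : Orthonormal ℝ ee := by
  classical
  rw [orthonormal_iff_ite]
  intro S T
  rw [inner_ee]
  have : ∫ ω, (ee T : X2) ω * chi S ω ∂Pr = ∫ ω, chi (symmDiff T S) ω ∂Pr := by
    apply integral_congr_ae
    filter_upwards [MemLp.coeFn_toLp (memLp_chi T)] with ω hω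
    rw [ee, hω, chi_mul]
  rw [this]
  split_ifs with h
  · subst h
    rw [symmDiff_self]
    simp [chi]
  · apply int_chi
    rw [Finset.nonempty_iff_ne_empty]
    intro h2
    exact h (symmDiff_eq_bot.1 h2).symm

theorem span_bot : (Submodule.span ℝ (Set.range ee))ᗮ = ⊥ := by
  rw [Submodule.eq_bot_iff]
  intro v hv
  rw [Submodule.mem_orthogonal] at hv
  apply walsh_complete
  intro S
  rw [← inner_ee]
  exact hv _ (Submodule.subset_span ⟨S, rfl⟩)

noncomputable def hb : HilbertBasis (Finset ℕ) ℝ X2 :=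
  HilbertBasis.mkOfOrthogonalEqBot orth span_bot

/-- Fourier-Walsh coefficients -/
noncomputable def cc (v : X2) (S : Finset ℕ) : ℝ := inner ℝ (ee S) v

theorem hasSum_cc (v : X2) : HasSum (fun S => cc v S ^ 2) (‖v‖ ^ 2) := by
  have h := hb.hasSum_inner_mul_inner v v
  rw [real_inner_self_eq_norm_sq] at h
  have hfun : (fun S => cc v S ^ 2) = fun S => inner ℝ v (hb S) * inner ℝ (hb S) v := by
    funext S
    have : hb S = ee S := by
      unfold hb
      rw [HilbertBasis.coe_mkOfOrthogonalEqBot]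
    rw [this, cc, real_inner_comm v (ee S), sq]
  rw [hfun]
  exact h

theorem cc_empty (v : X2) : cc v ∅ = ∫ ω, v ω ∂Pr := by
  rw [cc, inner_ee]
  simp [chi]

theorem cc_sub (v w : X2) (S : Finset ℕ) : cc (v - w) S = cc v S - cc w S := by
  simp [cc, inner_sub_right]

theorem cc_add (v w : X2) (S : Finset ℕ) : cc (v + w) S = cc v S + cc w S := by
  simp [cc, inner_add_right]

open Classical in
/-- weights -/
noncomputable def wt (A : Set ℕ) (S : Finset ℕ) : ℝ :=
  ((S.filter (· ∈ A)).card : ℝ) / S.card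

theorem wt_nonneg (A : Set ℕ) (S : Finset ℕ) : 0 ≤ wt A S := by
  unfold wt; positivity

theorem wt_le_one (A : Set ℕ) (S : Finset ℕ) : wt A S ≤ 1 := by
  classical
  unfold wt
  rcases Nat.eq_zero_or_pos S.card with h | h
  · rw [h]; simp
  · rw [div_le_one (by exact_mod_cast h)]
    exact_mod_cast Finset.card_filter_le _ _

theorem wt_union {A B : Set ℕ} (h : Disjoint A B) (S : Finset ℕ) :
    wt (A ∪ B) S = wt A S + wt B S := by
  classical
  unfold wt
  rw [← add_div, ← Nat.cast_add, ← Finset.card_union_of_disjoint]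
  · congr 3
    ext x
    simp only [Finset.mem_filter, Finset.mem_union, Set.mem_union]
    tauto
  · rw [Finset.disjoint_left]
    intro x hx hx'
    rw [Finset.mem_filter] at hx hx'
    exact Set.disjoint_left.1 h hx.2 hx'.2

theorem wt_univ (S : Finset ℕ) : wt univ S = if S = ∅ then 0 else 1 := by
  classical
  unfold wt
  split_ifs with h
  · subst h; simp
  · have : (S.card : ℝ) ≠ 0 := by
      rw [Nat.cast_ne_zero]
      exact fun h2 => h (Finset.card_eq_zero.1 h2)
    simp only [Set.mem_univ, Finset.filter_true]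
    exact div_self this

noncomputable def qq (A : Set ℕ) (v : X2) : ℝ := ∑' S, wt A S * cc v S ^ 2

theorem summ (A : Set ℕ) (v : X2) : Summable (fun S => wt A S * cc v S ^ 2) := by
  refine Summable.of_nonneg_of_le (fun S => mul_nonneg (wt_nonneg A S) (sq_nonneg _))
    (fun S => ?_) (hasSum_cc v).summable
  exact mul_le_of_le_one_left (sq_nonneg _) (wt_le_one A S)

theorem bound_t (A : Set ℕ) (v w : X2) {t : ℝ} (ht : 0 < t) :
    |qq A v - qq A w| ≤ (t * ‖v - w‖ ^ 2 + ‖v + w‖ ^ 2 / t) / 2 := by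
  unfold qq
  rw [← (summ A v).tsum_sub (summ A w)]
  have h1 : HasSum (fun S => (t * cc (v - w) S ^ 2 + cc (v + w) S ^ 2 / t) / 2)
      ((t * ‖v - w‖ ^ 2 + ‖v + w‖ ^ 2 / t) / 2) :=
    (((hasSum_cc (v - w)).mul_left t).add ((hasSum_cc (v + w)).div_const t)).div_const 2
  rw [← Real.norm_eq_abs]
  refine tsum_of_norm_bounded h1 fun S => ?_
  rw [cc_sub, cc_add, Real.norm_eq_abs]
  have h2 : wt A S * cc v S ^ 2 - wt A S * cc w S ^ 2 =
      wt A S * ((cc v S - cc w S) * (cc v S + cc w S)) := by ring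
  rw [h2, abs_mul, abs_of_nonneg (wt_nonneg A S)]
  refine (mul_le_of_le_one_left (abs_nonneg _) (wt_le_one A S)).trans ?_
  rw [abs_mul]
  set x := cc v S - cc w S
  set y := cc v S + cc w S
  have h3 : 0 ≤ (t * |x| - |y|) ^ 2 / t := by positivity
  have h4 : (t * |x| - |y|) ^ 2 / t = t * |x| ^ 2 + |y| ^ 2 / t - 2 * (|x| * |y|) := by
    field_simp
    ring
  rw [h4, sq_abs, sq_abs] at h3
  linarith

theorem lip (A : Set ℕ) (v w : X2) : |qq A v - qq A w| ≤ ‖v - w‖ * (‖v‖ + ‖w‖) := by
  have hadd : ‖v + w‖ ≤ ‖v‖ + ‖w‖ := norm_add_le v w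
  by_cases h1 : v - w = 0
  · rw [sub_eq_zero] at h1
    subst h1
    simp
  · have p1 : 0 < ‖v - w‖ := norm_pos_iff.2 h1
    by_cases h2 : v + w = 0
    · have hvw : v = -w := eq_neg_of_add_eq_zero_left h2
      have : qq A v = qq A w := by
        unfold qq
        congr 1
        funext S
        rw [hvw, cc, inner_neg_right, ← cc, neg_sq]
      rw [this, sub_self, abs_zero]
      positivity
    · have p2 : 0 < ‖v + w‖ := norm_pos_iff.2 h2
      have := bound_t A v w (t := ‖v + w‖ / ‖v - w‖) (by positivity)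
      have h3 : (‖v + w‖ / ‖v - w‖ * ‖v - w‖ ^ 2 + ‖v + w‖ ^ 2 / (‖v + w‖ / ‖v - w‖)) / 2 =
          ‖v - w‖ * ‖v + w‖ := by
        field_simp
        ring
      rw [h3] at this
      exact this.trans (mul_le_mul_of_nonneg_left hadd p1.le)

theorem q_univ (v : X2) : qq univ v = ‖v‖ ^ 2 - (∫ ω, v ω ∂Pr) ^ 2 := by
  unfold qq
  have h1 : HasSum (fun S : Finset ℕ => if S = ∅ then cc v ∅ ^ 2 else 0) (cc v ∅ ^ 2) :=
    hasSum_ite_eq ∅ _
  have h2 := (hasSum_cc v).sub h1
  rw [cc_empty] at h2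
  rw [← h2.tsum_eq]
  congr 1
  funext S
  rw [wt_univ]
  split_ifs with h
  · subst h; rw [cc_empty]; ring
  · ring

theorem chi_pm (π : Equiv.Perm ℕ) (S : Finset ℕ) (ω : Om) :
    chi S (pm π ω) = chi (S.map π.toEmbedding) ω := by
  unfold chi pm
  rw [Finset.prod_map]
  rfl

theorem cc_pm (π : Equiv.Perm ℕ) (h : MeasurePreserving (pm π) Pr Pr) (v : X2) (S : Finset ℕ) :
    cc (Lp.compMeasurePreserving (pm π) h v) (S.map π.toEmbedding) = cc v S := by
  rw [cc, inner_ee, cc, inner_ee]
  have h1 : ∫ ω, (Lp.compMeasurePreserving (pm π) h v) ω * chi (S.map π.toEmbedding) ω ∂Pr =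
      ∫ ω, (fun ω => v ω * chi S ω) (pm π ω) ∂Pr := by
    apply integral_congr_ae
    filter_upwards [Lp.coeFn_compMeasurePreserving v h] with ω hω
    rw [hω, Function.comp, chi_pm]
  rw [h1]
  have hm : AEStronglyMeasurable (fun ω => v ω * chi S ω) (Measure.map (pm π) Pr) := by
    rw [h.map_eq]
    exact (Lp.aestronglyMeasurable v).mul (measurable_chi S).aestronglyMeasurable
  rw [← integral_map h.aemeasurable hm, h.map_eq]

theorem wt_map (π : Equiv.Perm ℕ) (A : Set ℕ) (S : Finset ℕ) :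
    wt A (S.map π.toEmbedding) = wt (π ⁻¹' A) S := by
  classical
  unfold wt
  rw [Finset.card_map, Finset.filter_map, Finset.card_map]
  rfl

theorem q_pm (π : Equiv.Perm ℕ) (h : MeasurePreserving (pm π) Pr Pr) (A : Set ℕ) (v : X2) :
    qq A (Lp.compMeasurePreserving (pm π) h v) = qq (π ⁻¹' A) v := by
  unfold qq
  have hinj : Function.Injective (fun S : Finset ℕ => S.map π.toEmbedding) :=
    Finset.map_injective _
  have hsurj : Function.Surjective (fun S : Finset ℕ => S.map π.toEmbedding) := by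
    intro S
    refine ⟨S.map π.symm.toEmbedding, ?_⟩
    ext x
    simp
  rw [← (Equiv.ofBijective _ ⟨hinj, hsurj⟩).tsum_eq]
  congr 1
  funext S
  show wt A (S.map π.toEmbedding) *
    cc (Lp.compMeasurePreserving (pm π) h v) (S.map π.toEmbedding) ^ 2 = _
  rw [cc_pm, wt_map]

theorem t_WAL : S_WAL := by
  refine ⟨qq, fun A v => tsum_nonneg fun S => mul_nonneg (wt_nonneg A S) (sq_nonneg _),
    fun A B hAB v => ?_, lip, q_univ, fun π h A v => q_pm π h A v⟩
  unfold qq
  rw [← (summ A v).tsum_add (summ B v)]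
  congr 1
  funext S
  rw [wt_union hAB, add_mul]

end Pool.Agent.X211.EL
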