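import Pool.Agent.X171.EL.Stm

/-! Completeness of the Walsh functions (for part EL_WAL of MP_32ff52_an). -/

open MeasureTheory Set
open scoped ENNReal

namespace Pool.Agent.X211.EL

open Pool.Agent.X171.EL

/-- Walsh functions -/
noncomputable def chi (S : Finset ℕ) (ω : Om) : ℝ := ∏ i ∈ S, (if ω i then -1 else 1)

theorem measurable_chi (S : Finset ℕ) : Measurable (chi S) := by
  unfold chi
  refine Finset.measurable_prod S fun i _ => ?_
  exact (measurable_of_finite (fun b : Bool => if b then (-1 : ℝ) else 1)).comp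
    (measurable_pi_apply i)

theorem abs_chi (S : Finset ℕ) (ω : Om) : |chi S ω| = 1 := by
  unfold chi
  rw [Finset.abs_prod]
  apply Finset.prod_eq_one
  intro i _
  split_ifs <;> simp

theorem integrable_mul_chi {f : Om → ℝ} (hf : Integrable f Pr) (S : Finset ℕ) :
    Integrable (fun ω => f ω * chi S ω) Pr := by
  refine hf.mul_bdd (c := 1) (measurable_chi S).aestronglyMeasurable ?_
  exact Filter.Eventually.of_forall fun ω => by rw [Real.norm_eq_abs, abs_chi]

theorem int_cyl {f : Om → ℝ} (hf : Integrable f Pr)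
    (h : ∀ S : Finset ℕ, ∫ ω, f ω * chi S ω ∂Pr = 0) (F : Finset ℕ) (b : F → Bool) :
    Integrable (fun ω => f ω * ∏ i : F, ((1 + (if b i then (-1 : ℝ) else 1) *
      (if ω i then (-1 : ℝ) else 1)) / 2)) Pr ∧
    ∫ ω, f ω * ∏ i : F, ((1 + (if b i then (-1 : ℝ) else 1) *
      (if ω i then (-1 : ℝ) else 1)) / 2) ∂Pr = 0 := by
  have hE : ∀ ω : Om, f ω * ∏ i : F, ((1 + (if b i then (-1 : ℝ) else 1) *
      (if ω i then (-1 : ℝ) else 1)) / 2) =
      ∑ S ∈ (Finset.univ : Finset F).powerset, ((∏ _i : F, (2 : ℝ))⁻¹ *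
        ∏ i ∈ S, (if b i then (-1 : ℝ) else 1)) *
        (f ω * chi (S.map (Function.Embedding.subtype _)) ω) := by
    intro ω
    rw [Finset.prod_div_distrib, Finset.prod_one_add, Finset.sum_div, Finset.mul_sum]
    refine Finset.sum_congr rfl fun S _ => ?_
    rw [chi, Finset.prod_map, Finset.prod_mul_distrib]
    simp only [Function.Embedding.subtype_apply]
    field_simp
    try rfl
  simp only [hE]
  have hi : ∀ S ∈ (Finset.univ : Finset F).powerset, Integrable (fun ω =>
      ((∏ _i : F, (2 : ℝ))⁻¹ * ∏ i ∈ S, (if b i then (-1 : ℝ) else 1)) *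
        (f ω * chi (S.map (Function.Embedding.subtype _)) ω)) Pr := fun S _ =>
    (integrable_mul_chi hf _).const_mul _
  refine ⟨integrable_finsetSum _ hi, ?_⟩
  rw [integral_finsetSum _ hi]
  refine Finset.sum_eq_zero fun S _ => ?_
  rw [integral_const_mul, h, mul_zero]

theorem prod_ind (F : Finset ℕ) (b : F → Bool) (ω : Om) :
    (∏ i : F, ((1 + (if b i then (-1 : ℝ) else 1) *
      (if ω i then (-1 : ℝ) else 1)) / 2)) = if (fun i : F => ω i) = b then 1 else 0 := by
  split_ifs with hb
  · subst hb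
    apply Finset.prod_eq_one
    intro i _
    split_ifs <;> norm_num
  · obtain ⟨i, hi⟩ := Function.ne_iff.1 hb
    refine Finset.prod_eq_zero (Finset.mem_univ i) ?_
    rcases Bool.eq_false_or_eq_true (b i) with h1 | h1 <;>
      rcases Bool.eq_false_or_eq_true (ω i) with h2 | h2 <;>
      simp_all

open Classical in
theorem set_int_cyl {f : Om → ℝ} (hf : Integrable f Pr)
    (h : ∀ S : Finset ℕ, ∫ ω, f ω * chi S ω ∂Pr = 0) (F : Finset ℕ) (S' : Set (F → Bool)) :
    ∫ ω in {ω : Om | (fun i : F => ω i) ∈ S'}, f ω ∂Pr = 0 := by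
  have hm : MeasurableSet {ω : Om | (fun i : F => ω i) ∈ S'} := by
    have : Measurable (fun ω : Om => (fun i : F => ω i)) :=
      measurable_pi_lambda _ fun i => measurable_pi_apply _
    exact this (Set.toFinite S').measurableSet
  rw [← integral_indicator hm]
  have hE : ∀ ω : Om, ({ω : Om | (fun i : F => ω i) ∈ S'}).indicator f ω =
      ∑ b : F → Bool, (if b ∈ S' then (1 : ℝ) else 0) * (f ω * ∏ i : F,
        ((1 + (if b i then (-1 : ℝ) else 1) * (if ω i then (-1 : ℝ) else 1)) / 2)) := by
    intro ω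
    rw [Finset.sum_eq_single (fun i : F => ω i)]
    · rw [prod_ind, if_pos rfl]
      by_cases hmem : (fun i : F => ω i) ∈ S'
      · rw [Set.indicator_of_mem (show ω ∈ {ω : Om | (fun i : F => ω i) ∈ S'} from hmem),
          if_pos hmem]
        simp
      · rw [Set.indicator_of_notMem (show ω ∉ {ω : Om | (fun i : F => ω i) ∈ S'} from hmem),
          if_neg hmem]
        simp
    · intro b _ hb
      rw [prod_ind, if_neg (Ne.symm hb)]
      simp
    · intro hh
      exact absurd (Finset.mem_univ _) hh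
  simp only [hE]
  rw [integral_finsetSum _ fun b _ => (int_cyl hf h F b).1.const_mul _]
  refine Finset.sum_eq_zero fun b _ => ?_
  rw [integral_const_mul, (int_cyl hf h F b).2, mul_zero]

theorem ae_zero {f : Om → ℝ} (hf : Integrable f Pr)
    (h : ∀ S : Finset ℕ, ∫ ω, f ω * chi S ω ∂Pr = 0) : f =ᵐ[Pr] 0 := by
  have h0 : ∫ ω, f ω ∂Pr = 0 := by
    have := h ∅
    simpa [chi] using this
  have key : ∀ s : Set Om, MeasurableSet s → ∫ ω in s, f ω ∂Pr = 0 := by
    intro s hs
    induction s, hs using MeasurableSpace.induction_on_inter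
      (s := measurableCylinders (fun _ : ℕ => Bool))
      (generateFrom_measurableCylinders (α := fun _ : ℕ => Bool)).symm
      isPiSystem_measurableCylinders with
    | empty => simp
    | basic t ht =>
      rw [mem_measurableCylinders] at ht
      obtain ⟨F, S', _, rfl⟩ := ht
      exact set_int_cyl hf h F S'
    | compl t ht ih =>
      have := integral_add_compl ht hf
      rw [ih, h0, zero_add] at this
      exact this
    | iUnion g hd hm ih =>
      rw [integral_iUnion hm hd hf.integrableOn]
      simp [ih]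
  exact hf.ae_eq_zero_of_forall_setIntegral_eq_zero fun s hs _ => key s hs

theorem walsh_complete (v : X2) (h : ∀ S : Finset ℕ, ∫ ω, v ω * chi S ω ∂Pr = 0) : v = 0 := by
  have hi : Integrable v Pr := (Lp.memLp v).integrable (by norm_num)
  have := ae_zero hi h
  exact Lp.ext (this.trans (Lp.coeFn_zero ℝ 2 Pr).symm)

end Pool.Agent.X211.EL
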